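import Pool.Agent.R497.NC.Defs

/-!
# van der Corput's lemma (project NC, MP_9d6b4a_an), by helper33
-/

set_option autoImplicit false

namespace Pool.Agent.R497.NC

open MeasureTheory Filter Finset
open scoped InnerProductSpace

namespace VDCaux

variable {H : Type} [NormedAddCommGroup H] [InnerProductSpace ℝ H]

/-- shifting a sum -/
theorem shift {E : Type} [NormedAddCommGroup E] (f : ℕ → E) (C : ℝ) (hC : ∀ n, ‖f n‖ ≤ C) (k N : ℕ) :
    ‖∑ n ∈ range N, f (n + k) - ∑ n ∈ range N, f n‖ ≤ 2 * k * C := by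
  have h1 : ∑ n ∈ range (N + k), f n = ∑ n ∈ range N, f n + ∑ i ∈ range k, f (N + i) :=
    Finset.sum_range_add _ _ _
  have h2 : ∑ n ∈ range (k + N), f n = ∑ n ∈ range k, f n + ∑ i ∈ range N, f (k + i) :=
    Finset.sum_range_add _ _ _
  have h3 : ∑ n ∈ range N, f (n + k) = ∑ i ∈ range N, f (k + i) :=
    Finset.sum_congr rfl fun i _ => by rw [add_comm]
  have h4 : ∑ n ∈ range N, f (n + k) - ∑ n ∈ range N, f n =
      ∑ i ∈ range k, f (N + i) - ∑ n ∈ range k, f n := by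
    rw [h3]
    rw [add_comm k N, h1] at h2
    rw [sub_eq_sub_iff_add_eq_add]
    rw [add_comm (∑ i ∈ range k, f (N + i)), h2, add_comm]
  rw [h4]
  have h5 : ∀ g : ℕ → E, (∀ n, ‖g n‖ ≤ C) → ‖∑ i ∈ range k, g i‖ ≤ k * C := by
    intro g hg
    calc ‖∑ i ∈ range k, g i‖ ≤ ∑ i ∈ range k, ‖g i‖ := norm_sum_le _ _
      _ ≤ ∑ i ∈ range k, C := Finset.sum_le_sum fun i _ => hg i
      _ = k * C := by simp
  calc _ ≤ ‖∑ i ∈ range k, f (N + i)‖ + ‖∑ n ∈ range k, f n‖ := norm_sub_le _ _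
    _ ≤ k * C + k * C := add_le_add (h5 _ fun i => hC _) (h5 _ hC)
    _ = _ := by ring

theorem shift_lim (f : ℕ → ℝ) (C : ℝ) (hC : ∀ n, ‖f n‖ ≤ C) (k : ℕ)
    (h : Tendsto (fun N : ℕ => (N : ℝ)⁻¹ * ∑ n ∈ range N, f n) atTop (nhds 0)) :
    Tendsto (fun N : ℕ => (N : ℝ)⁻¹ * ∑ n ∈ range N, f (n + k)) atTop (nhds 0) := by
  have h2 : Tendsto (fun N : ℕ => (N : ℝ)⁻¹ * (2 * k * C)) atTop (nhds 0) := by
    have := (tendsto_inv_atTop_nhds_zero_nat (𝕜 := ℝ)).mul_const (2 * k * C)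
    simpa using this
  have h3 : Tendsto (fun N : ℕ => (N : ℝ)⁻¹ * (∑ n ∈ range N, f (n + k) - ∑ n ∈ range N, f n))
      atTop (nhds 0) := by
    apply squeeze_zero_norm _ h2
    intro N
    rw [norm_mul, norm_inv, Real.norm_natCast]
    exact mul_le_mul_of_nonneg_left (shift f C hC k N) (by positivity)
  have h4 := h.add h3
  simp only [add_zero] at h4
  refine h4.congr fun N => ?_
  ring

omit [InnerProductSpace ℝ H] in
theorem sq_sum_le (N : ℕ) (w : ℕ → H) :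
    ‖∑ n ∈ range N, w n‖ ^ 2 ≤ N * ∑ n ∈ range N, ‖w n‖ ^ 2 := by
  calc ‖∑ n ∈ range N, w n‖ ^ 2 ≤ (∑ n ∈ range N, ‖w n‖) ^ 2 := by
        apply pow_le_pow_left₀ (norm_nonneg _) (norm_sum_le _ _)
    _ ≤ (#(range N) : ℝ) * ∑ n ∈ range N, ‖w n‖ ^ 2 := sq_sum_le_card_mul_sum_sq
    _ = _ := by simp

end VDCaux

open VDCaux in
theorem tVDC : S_VDC := by
  intro H _ _ v C hv hcor
  have hC : 0 ≤ C := (norm_nonneg _).trans (hv 0)
  -- correlations
  have hin : ∀ m n, ‖⟪v m, v n⟫_ℝ‖ ≤ C * C := fun m n =>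
    (norm_inner_le_norm _ _).trans (mul_le_mul (hv m) (hv n) (norm_nonneg _) hC)
  have hcor2 : ∀ k l : ℕ, k ≠ l →
      Tendsto (fun N : ℕ => (N : ℝ)⁻¹ * ∑ n ∈ range N, ⟪v (n + k), v (n + l)⟫_ℝ) atTop (nhds 0) := by
    have key : ∀ k d : ℕ, 0 < d →
        Tendsto (fun N : ℕ => (N : ℝ)⁻¹ * ∑ n ∈ range N, ⟪v (n + k), v (n + (k + d))⟫_ℝ)
          atTop (nhds 0) := by
      intro k d hd
      have := shift_lim (fun n => ⟪v n, v (n + d)⟫_ℝ) (C * C) (fun n => hin _ _) k (hcor d hd)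
      refine this.congr fun N => ?_
      congr 1
      apply Finset.sum_congr rfl
      intro n _
      simp only [add_assoc]
    intro k l hkl
    rcases lt_or_gt_of_ne hkl with h | h
    · obtain ⟨d, hd, rfl⟩ : ∃ d, 0 < d ∧ l = k + d := ⟨l - k, by omega, by omega⟩
      exact key k d hd
    · obtain ⟨d, hd, rfl⟩ : ∃ d, 0 < d ∧ k = l + d := ⟨k - l, by omega, by omega⟩
      refine (key l d hd).congr fun N => ?_
      congr 1
      apply Finset.sum_congr rfl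
      intro n _
      rw [real_inner_comm]
  -- the main bound for each K
  have main : ∀ K : ℕ, 0 < K → ∀ N : ℕ, 0 < N →
      ‖(N : ℝ)⁻¹ • ∑ n ∈ range N, v n‖ ≤ 2 * K * C * (N : ℝ)⁻¹ +
        √((K : ℝ)⁻¹ ^ 2 * ∑ k ∈ range K, ∑ l ∈ range K,
          (N : ℝ)⁻¹ * ∑ n ∈ range N, ⟪v (n + k), v (n + l)⟫_ℝ) := by
    intro K hK N hN
    have hKr : (0 : ℝ) < K := by exact_mod_cast hK
    have hNr : (0 : ℝ) < N := by exact_mod_cast hN
    set S : H := ∑ n ∈ range N, v n with hS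
    set F : ℕ → H := fun n => ∑ k ∈ range K, v (n + k) with hF
    have e1 : ‖∑ n ∈ range N, F n - (K : ℝ) • S‖ ≤ K * (2 * K * C) := by
      have : ∑ n ∈ range N, F n - (K : ℝ) • S =
          ∑ k ∈ range K, (∑ n ∈ range N, v (n + k) - ∑ n ∈ range N, v n) := by
        rw [hF, Finset.sum_comm, Finset.sum_sub_distrib]
        congr 1
        rw [Finset.sum_const, Finset.card_range, ← hS, Nat.cast_smul_eq_nsmul]
      rw [this]
      calc _ ≤ ∑ k ∈ range K, ‖∑ n ∈ range N, v (n + k) - ∑ n ∈ range N, v n‖ := norm_sum_le _ _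
        _ ≤ ∑ k ∈ range K, (2 * K * C) := by
            apply Finset.sum_le_sum
            intro k hk
            refine (shift v C hv k N).trans ?_
            have : (k : ℝ) ≤ K := by exact_mod_cast (mem_range.mp hk).le
            have := mul_le_mul_of_nonneg_right this hC
            linarith
        _ = _ := by simp
    have e2 : ‖∑ n ∈ range N, F n‖ ^ 2 ≤ N * ∑ n ∈ range N, ‖F n‖ ^ 2 := sq_sum_le N F
    have e3 : ∑ n ∈ range N, ‖F n‖ ^ 2 =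
        ∑ k ∈ range K, ∑ l ∈ range K, ∑ n ∈ range N, ⟪v (n + k), v (n + l)⟫_ℝ := by
      have : ∀ n, ‖F n‖ ^ 2 = ∑ k ∈ range K, ∑ l ∈ range K, ⟪v (n + k), v (n + l)⟫_ℝ := by
        intro n
        rw [← real_inner_self_eq_norm_sq, hF]
        simp only [sum_inner, inner_sum]
        exact Finset.sum_comm
      simp only [this]
      rw [Finset.sum_comm]
      apply Finset.sum_congr rfl
      intro k _
      rw [Finset.sum_comm]
    have e4 : ‖(N : ℝ)⁻¹ • (K : ℝ)⁻¹ • ∑ n ∈ range N, F n‖ ^ 2 ≤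
        (K : ℝ)⁻¹ ^ 2 * ∑ k ∈ range K, ∑ l ∈ range K,
          (N : ℝ)⁻¹ * ∑ n ∈ range N, ⟪v (n + k), v (n + l)⟫_ℝ := by
      have e5 : ∑ k ∈ range K, ∑ l ∈ range K,
          (N : ℝ)⁻¹ * ∑ n ∈ range N, ⟪v (n + k), v (n + l)⟫_ℝ = (N : ℝ)⁻¹ * ∑ n ∈ range N, ‖F n‖ ^ 2 := by
        rw [e3, Finset.mul_sum]
        apply Finset.sum_congr rfl
        intro k _
        rw [Finset.mul_sum]
      rw [e5, norm_smul, norm_smul, mul_pow, mul_pow, norm_inv, norm_inv, Real.norm_natCast,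
        Real.norm_natCast]
      calc (N : ℝ)⁻¹ ^ 2 * ((K : ℝ)⁻¹ ^ 2 * ‖∑ n ∈ range N, F n‖ ^ 2) ≤
          (N : ℝ)⁻¹ ^ 2 * ((K : ℝ)⁻¹ ^ 2 * (N * ∑ n ∈ range N, ‖F n‖ ^ 2)) := by gcongr
        _ = _ := by field_simp
    have e6 : ‖(N : ℝ)⁻¹ • (K : ℝ)⁻¹ • ∑ n ∈ range N, F n‖ ≤
        √((K : ℝ)⁻¹ ^ 2 * ∑ k ∈ range K, ∑ l ∈ range K,
          (N : ℝ)⁻¹ * ∑ n ∈ range N, ⟪v (n + k), v (n + l)⟫_ℝ) :=
      Real.le_sqrt_of_sq_le e4
    have e7 : (N : ℝ)⁻¹ • S = (N : ℝ)⁻¹ • (K : ℝ)⁻¹ • ∑ n ∈ range N, F n -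
        (N : ℝ)⁻¹ • (K : ℝ)⁻¹ • (∑ n ∈ range N, F n - (K : ℝ) • S) := by
      rw [← smul_sub, ← smul_sub, sub_sub_cancel, smul_smul (K : ℝ)⁻¹, inv_mul_cancel₀ hKr.ne',
        one_smul]
    have e8 : ‖(N : ℝ)⁻¹ • (K : ℝ)⁻¹ • (∑ n ∈ range N, F n - (K : ℝ) • S)‖ ≤
        2 * K * C * (N : ℝ)⁻¹ := by
      rw [norm_smul, norm_smul, norm_inv, norm_inv, Real.norm_natCast, Real.norm_natCast]
      calc (N : ℝ)⁻¹ * ((K : ℝ)⁻¹ * ‖∑ n ∈ range N, F n - (K : ℝ) • S‖) ≤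
          (N : ℝ)⁻¹ * ((K : ℝ)⁻¹ * (K * (2 * K * C))) := by gcongr
        _ = _ := by field_simp
    rw [e7]
    refine (norm_sub_le _ _).trans ?_
    linarith
  -- limit of the bound for fixed K
  have lim : ∀ K : ℕ, 0 < K → Tendsto (fun N : ℕ => (K : ℝ)⁻¹ ^ 2 * ∑ k ∈ range K, ∑ l ∈ range K,
      if k = l then (0 : ℝ) else (N : ℝ)⁻¹ * ∑ n ∈ range N, ⟪v (n + k), v (n + l)⟫_ℝ) atTop (nhds 0) := by
    intro K hK
    have h1 : Tendsto (fun N : ℕ => ∑ k ∈ range K, ∑ l ∈ range K,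
        if k = l then (0 : ℝ) else (N : ℝ)⁻¹ * ∑ n ∈ range N, ⟪v (n + k), v (n + l)⟫_ℝ) atTop
        (nhds (∑ k ∈ range K, ∑ l ∈ range K, (0 : ℝ))) := by
      apply tendsto_finsetSum
      intro k _
      apply tendsto_finsetSum
      intro l _
      by_cases hkl : k = l
      · simp only [hkl, if_true]
        exact tendsto_const_nhds
      · simp only [hkl, if_false]
        exact hcor2 k l hkl
    simp only [Finset.sum_const_zero] at h1
    have := h1.const_mul ((K : ℝ)⁻¹ ^ 2)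
    simpa using this
  -- diagonal
  have diag : ∀ K : ℕ, 0 < K → ∀ N : ℕ, 0 < N →
      ∑ k ∈ range K, ∑ l ∈ range K, (N : ℝ)⁻¹ * ∑ n ∈ range N, ⟪v (n + k), v (n + l)⟫_ℝ ≤
      K * (C * C) + ∑ k ∈ range K, ∑ l ∈ range K,
        if k = l then (0 : ℝ) else (N : ℝ)⁻¹ * ∑ n ∈ range N, ⟪v (n + k), v (n + l)⟫_ℝ := by
    intro K hK N hN
    have hNr : (0 : ℝ) < N := by exact_mod_cast hN
    have h1 : ∀ k ∈ range K, ∑ l ∈ range K, (N : ℝ)⁻¹ * ∑ n ∈ range N, ⟪v (n + k), v (n + l)⟫_ℝ ≤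
        C * C + ∑ l ∈ range K,
          if k = l then (0 : ℝ) else (N : ℝ)⁻¹ * ∑ n ∈ range N, ⟪v (n + k), v (n + l)⟫_ℝ := by
      intro k hk
      have h2 : ∀ l ∈ range K, (N : ℝ)⁻¹ * ∑ n ∈ range N, ⟪v (n + k), v (n + l)⟫_ℝ ≤
          (if k = l then C * C else 0) +
          (if k = l then (0 : ℝ) else (N : ℝ)⁻¹ * ∑ n ∈ range N, ⟪v (n + k), v (n + l)⟫_ℝ) := by
        intro l _
        by_cases hkl : k = l
        · simp only [hkl, if_true, add_zero]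
          have h3 : ∑ n ∈ range N, ⟪v (n + l), v (n + l)⟫_ℝ ≤ N * (C * C) := by
            calc _ ≤ ∑ n ∈ range N, (C * C) := Finset.sum_le_sum fun n _ =>
                  (Real.le_norm_self _).trans (hin _ _)
              _ = _ := by simp
          calc (N : ℝ)⁻¹ * ∑ n ∈ range N, ⟪v (n + l), v (n + l)⟫_ℝ ≤
              (N : ℝ)⁻¹ * (N * (C * C)) := by gcongr
            _ = C * C := by field_simp
        · simp only [hkl, if_false, zero_add]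
          exact le_rfl
      refine (Finset.sum_le_sum h2).trans ?_
      rw [Finset.sum_add_distrib, Finset.sum_ite_eq, if_pos hk]
    refine (Finset.sum_le_sum h1).trans ?_
    rw [Finset.sum_add_distrib, Finset.sum_const, Finset.card_range, nsmul_eq_mul]
  -- conclusion
  rw [Metric.tendsto_atTop]
  intro ε hε
  obtain ⟨K, hK1, hK2⟩ : ∃ K : ℕ, 0 < K ∧ C * C / K < (ε / 2) ^ 2 / 2 := by
    obtain ⟨K, hK⟩ := exists_nat_gt (C * C / ((ε / 2) ^ 2 / 2))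
    have hpos : 0 < (ε / 2) ^ 2 / 2 := by positivity
    have hK0 : (0 : ℝ) < K := lt_of_le_of_lt (by positivity) hK
    refine ⟨K, by exact_mod_cast hK0, ?_⟩
    rw [div_lt_iff₀ hK0]
    rw [div_lt_iff₀ hpos] at hK
    linarith
  have hKr : (0 : ℝ) < K := by exact_mod_cast hK1
  have l1 := (lim K hK1).eventually (gt_mem_nhds (show (0 : ℝ) < (ε / 2) ^ 2 / 2 by positivity))
  have l2 : Tendsto (fun N : ℕ => 2 * K * C * (N : ℝ)⁻¹) atTop (nhds 0) := by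
    have := (tendsto_inv_atTop_nhds_zero_nat (𝕜 := ℝ)).const_mul (2 * K * C)
    simpa using this
  have l3 := l2.eventually (gt_mem_nhds (show (0 : ℝ) < ε / 2 by positivity))
  obtain ⟨N0, hN0⟩ := Filter.eventually_atTop.mp ((l1.and l3).and (eventually_gt_atTop 0))
  refine ⟨N0, fun N hN => ?_⟩
  obtain ⟨⟨h1, h2⟩, h3⟩ := hN0 N hN
  rw [dist_zero_right]
  refine (main K hK1 N h3).trans_lt ?_
  have h4 : √((K : ℝ)⁻¹ ^ 2 * ∑ k ∈ range K, ∑ l ∈ range K,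
          (N : ℝ)⁻¹ * ∑ n ∈ range N, ⟪v (n + k), v (n + l)⟫_ℝ) < ε / 2 := by
    rw [Real.sqrt_lt' (by positivity)]
    have h5 := mul_le_mul_of_nonneg_left (diag K hK1 N h3) (show 0 ≤ (K : ℝ)⁻¹ ^ 2 by positivity)
    refine h5.trans_lt ?_
    rw [mul_add]
    have h6 : (K : ℝ)⁻¹ ^ 2 * (K * (C * C)) = C * C / K := by field_simp
    rw [h6]
    linarith
  linarith

end Pool.Agent.R497.NC
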